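import Pool.Agent.Q283.EN.Stm
import Pool.Agent.Q123.LK.SH2

/-!
# Project EN, job SSX: the classes are the solutions of the table
-/

set_option autoImplicit false
set_option linter.unusedSectionVars false

namespace Pool.Agent.Q176.EN

open NumberField IsDedekindDomain Filter Topology Finset
open Pool.Agent.Q7.LK Pool.Agent.Q123.LK Pool.Agent.Q283.EN
open Pool.Agent.Q283.LQ (Sm Box Nest nS)

variable {p : ℕ} [Fact p.Prime] {F : Type} [Field F] [NumberField F]

section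
variable {ζ : F} {y f : ℕ} {u r : Fin f → F} {π : HeightOneSpectrum (𝓞 F) → F}
  {g : (Fin f → ZMod p) → (Fin f → ZMod p) → ZMod p} {k : ℕ}

theorem vl_gen (hB : S_BAS) (B : Base p ζ y f u r π g) (q : Fin k → HeightOneSpectrum (𝓞 F))
    (hS : ∀ i, ¬ Sm y (q i)) (Y : Fin k → ZMod p) {v : HeightOneSpectrum (𝓞 F)} (hv : ¬ Sm y v) :
    vl p v (∏ j, π (q j) ^ (Y j).val) = ∑ j, @ite _ (q j = v) (Classical.dec _) (Y j) 0 := by
  classical
  have hπ : ∀ i, π (q i) ≠ 0 := fun i => (B.po (q i) (hS i)).1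
  rw [vl_prod hB v _ _ fun j _ => pow_ne_zero _ (hπ j)]
  refine Finset.sum_congr rfl fun j _ => ?_
  rw [vl_pow hB v (hπ j), (B.po (q j) (hS j)).2 v hv, ZMod.natCast_zmod_val]
  by_cases h : v = q j
  · rw [if_pos h, if_pos h.symm, mul_one]
  · rw [if_neg h, if_neg fun h' => h h'.symm, mul_zero]

theorem vl_rel (hB : S_BAS) (B : Base p ζ y f u r π g) (q : Fin k → HeightOneSpectrum (𝓞 F))
    (hS : ∀ i, ¬ Sm y (q i)) {a : F} (ha : a ≠ 0) {c : Fin f → ZMod p} {Y : Fin k → ZMod p}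
    (h : Eqv p (a * mon u c) (∏ j, π (q j) ^ (Y j).val)) {v : HeightOneSpectrum (𝓞 F)}
    (hv : ¬ Sm y v) : vl p v a = ∑ j, @ite _ (q j = v) (Classical.dec _) (Y j) 0 := by
  have hπ : ∀ i, π (q i) ≠ 0 := fun i => (B.po (q i) (hS i)).1
  have h1 := vl_eqv hB v h (Finset.prod_ne_zero_iff.2 fun j _ => pow_ne_zero _ (hπ j))
  rw [vl_gen hB B q hS Y hv, vl_mul hB v ha (mon_ne B.ue c),
    vl_mon hB v B.ue (fun l => B.uo l v hv) c, add_zero] at h1
  exact h1

theorem sum_ite_q {q : Fin k → HeightOneSpectrum (𝓞 F)} (hq : Function.Injective q)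
    (Y : Fin k → ZMod p) (j : Fin k) :
    ∑ i, @ite _ (q i = q j) (Classical.dec _) (Y i) 0 = Y j := by
  classical
  rw [Finset.sum_eq_single j]
  · rw [if_pos rfl]
  · intro i _ hi
    rw [if_neg fun h => hi (hq h)]
  · intro h; exact absurd (Finset.mem_univ j) h

theorem sum_ite_none {q : Fin k → HeightOneSpectrum (𝓞 F)} {v : HeightOneSpectrum (𝓞 F)}
    (hv : ∀ i, q i ≠ v) (Y : Fin k → ZMod p) :
    ∑ i, @ite _ (q i = v) (Classical.dec _) (Y i) 0 = 0 :=
  Finset.sum_eq_zero fun i _ => if_neg (hv i)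

theorem vl_D {D0 D : F} {z : Fin k → ZMod p} {q : Fin k → HeightOneSpectrum (𝓞 F)}
    (hfit : Fits p y D0 z q D) {v : HeightOneSpectrum (𝓞 F)} (hv : ¬ Sm y v) :
    vl p v D = ∑ i, @ite _ (q i = v) (Classical.dec _) (z i) 0 := by
  rw [hfit.ram v hv]

/-- the symbol at `q j` of `a D ^ s` -/
theorem sy_formula (hB : S_BAS) (hSH1 : S_SH1) (hζ : IsPrimitiveRoot ζ p)
    (B : Base p ζ y f u r π g) {D0 : F} {ψ w : Fin f → ZMod p} (hD0 : D0 ≠ 0)
    (hw : Nn p y (D0 * mon r ψ * mon u w)) (z : Fin k → ZMod p)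
    (q : Fin k → HeightOneSpectrum (𝓞 F)) (hz : ∀ i, z i ≠ 0)
    (hq : Function.Injective q) (hS : ∀ i, ¬ Sm y (q i)) (τ : Tab p f k) (hτ : Tb ζ u π τ q)
    {D : F} (hfit : Fits p y D0 z q D) {a : F} (ha : a ≠ 0) {c : Fin f → ZMod p}
    {Y : Fin k → ZMod p} (hc2 : Eqv p (a * mon u c) (∏ j, π (q j) ^ (Y j).val)) (j : Fin k)
    {s : ℕ} (hs' : (s : ZMod p) = -(Y j * (z j)⁻¹)) :
    vl p (q j) (a * D ^ s) = 0 ∧ sy p ζ (q j) (a * D ^ s) =
      ∑ i, (Y i - Y j * (z j)⁻¹ * z i) * Mt g τ i j - dot (τ.1 j) (c - (Y j * (z j)⁻¹) • w) := by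
  classical
  have hp0 : p ≠ 0 := (Fact.out : p.Prime).ne_zero
  have hπ : ∀ i, π (q i) ≠ 0 := fun i => (B.po (q i) (hS i)).1
  have hdp : ∀ v : HeightOneSpectrum (𝓞 F), ¬ Sm y v → ¬ Dp p v := fun v hv h => hv (sm_of_dp B.two h)
  have hvπ : ∀ i v, ¬ Sm y v → vl p v (π (q i)) = if q i = v then 1 else 0 := by
    intro i v hv
    rw [(B.po (q i) (hS i)).2 v hv]
    by_cases h : v = q i
    · rw [if_pos h, if_pos h.symm]
    · rw [if_neg h, if_neg fun h' => h h'.symm]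
  have hmc : mon u c ≠ 0 := mon_ne B.ue c
  have hmw : mon u w ≠ 0 := mon_ne B.ue w
  have hdj := hdp _ (hS j)
  set P : F := ∏ j, π (q j) ^ (Y j).val with hP
  -- the relation for `D`
  have hDw := (hSH1 p F ζ hζ y f u r π g B D0 ψ w hD0 hw k z q hq hS τ hτ).2 D hfit
  set Q : F := ∏ j, π (q j) ^ (z j).val with hQ
  have hQ0 : Q ≠ 0 := Finset.prod_ne_zero_iff.2 fun j _ => pow_ne_zero _ (hπ j)
  have hD1 : Eqv p (D * mon u w) Q := by
    have h1 := eqv_one_of (div_ne_zero (mul_ne_zero hfit.ne hmw) hQ0) hDw hp0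
    have h2 := eqv_mul h1 (eqv_refl (p := p) Q)
    rwa [one_mul, div_mul_cancel₀ _ hQ0] at h2
  -- all together
  have h1 : Eqv p (a * D ^ s * (mon u c * mon u w ^ s)) (∏ i, π (q i) ^ ((Y i).val + s * (z i).val)) := by
    have h2 := eqv_mul hc2 (eqv_pow hD1 s)
    have h3 : a * mon u c * (D * mon u w) ^ s = a * D ^ s * (mon u c * mon u w ^ s) := by
      rw [mul_pow]; ring
    have h4 : P * Q ^ s = ∏ i, π (q i) ^ ((Y i).val + s * (z i).val) := by
      rw [hP, hQ, ← Finset.prod_pow, ← Finset.prod_mul_distrib]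
      refine Finset.prod_congr rfl fun i _ => ?_
      rw [pow_add, mul_comm s, pow_mul]
    rwa [h3, h4] at h2
  have h2 : ∏ i, π (q i) ^ ((Y i).val + s * (z i).val) =
      (∏ i ∈ univ.erase j, π (q i) ^ ((Y i).val + s * (z i).val)) * π (q j) ^ ((Y j).val + s * (z j).val) :=
    (Finset.prod_erase_mul _ _ (Finset.mem_univ j)).symm
  have hzj := hz j
  have h3 : p ∣ (Y j).val + s * (z j).val := by
    rw [← ZMod.natCast_eq_zero_iff, Nat.cast_add, Nat.cast_mul, ZMod.natCast_zmod_val,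
      ZMod.natCast_zmod_val, hs', neg_mul, mul_assoc, inv_mul_cancel₀ hzj, mul_one, add_neg_cancel]
  obtain ⟨m, hm⟩ := h3
  set R : F := ∏ i ∈ univ.erase j, π (q i) ^ ((Y i).val + s * (z i).val) with hR
  have hR0 : R ≠ 0 := Finset.prod_ne_zero_iff.2 fun i _ => pow_ne_zero _ (hπ i)
  have h4 : Eqv p (a * D ^ s * (mon u c * mon u w ^ s)) R := by
    refine eqv_trans h1 ?_
    rw [h2, hm, mul_comm p m, pow_mul]
    exact eqv_one_mul (eqv_pow_p (pow_ne_zero _ (hπ j)))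
  have hoi : ∀ i ∈ univ.erase j, vl p (q j) (π (q i)) = 0 := by
    intro i hi
    rw [hvπ i _ (hS j), if_neg fun h => (Finset.mem_erase.1 hi).1 (hq h)]
  have hvR : vl p (q j) R = 0 := by
    rw [hR, vl_prod hB _ _ _ fun i _ => pow_ne_zero _ (hπ i)]
    refine Finset.sum_eq_zero fun i hi => ?_
    rw [vl_pow hB _ (hπ i), hoi i hi, mul_zero]
  have hou : ∀ l, vl p (q j) (u l) = 0 := fun l => B.uo l _ (hS j)
  have hvc : vl p (q j) (mon u c) = 0 := vl_mon hB _ B.ue hou c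
  have hvw : vl p (q j) (mon u w) = 0 := vl_mon hB _ B.ue hou w
  have hvws : vl p (q j) (mon u w ^ s) = 0 := by rw [vl_pow hB _ hmw, hvw, mul_zero]
  have hvcw : vl p (q j) (mon u c * mon u w ^ s) = 0 := by
    rw [vl_mul hB _ hmc (pow_ne_zero _ hmw), hvc, hvws, add_zero]
  have haD : a * D ^ s ≠ 0 := mul_ne_zero ha (pow_ne_zero _ hfit.ne)
  have hvaD : vl p (q j) (a * D ^ s) = 0 := by
    have h5 := vl_eqv hB (q j) h4 hR0
    rw [vl_mul hB _ haD (mul_ne_zero hmc (pow_ne_zero _ hmw)), hvcw, add_zero, hvR] at h5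
    exact h5
  refine ⟨hvaD, ?_⟩
  have h5 := sy_eqv hB hζ hdj h4 hR0 hvR
  rw [sy_mul hB hζ hdj haD (mul_ne_zero hmc (pow_ne_zero _ hmw)) hvaD hvcw,
    sy_mul hB hζ hdj hmc (pow_ne_zero _ hmw) hvc hvws,
    sy_pow hB hζ hdj hmw hvw, sy_mon hB hζ hdj B.ue hou, sy_mon hB hζ hdj B.ue hou, hR,
    sy_prod hB hζ hdj _ _ (fun i _ => pow_ne_zero _ (hπ i))
      (fun i hi => by rw [vl_pow hB _ (hπ i), hoi i hi, mul_zero])] at h5
  have h6 : (fun l => sy p ζ (q j) (u l)) = τ.1 j := funext fun l => hτ.1 j l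
  rw [h6] at h5
  have h7 : ∀ i ∈ univ.erase j, sy p ζ (q j) (π (q i) ^ ((Y i).val + s * (z i).val)) =
      (Y i - Y j * (z j)⁻¹ * z i) * Mt g τ i j := by
    intro i hi
    have hij : i ≠ j := (Finset.mem_erase.1 hi).1
    rw [sy_pow hB hζ hdj (hπ i) (hoi i hi), Nat.cast_add, Nat.cast_mul, ZMod.natCast_zmod_val,
      ZMod.natCast_zmod_val, hs']
    have h8 : sy p ζ (q j) (π (q i)) = Mt g τ i j := by
      unfold Mt
      rcases lt_trichotomy i j with h9 | h9 | h9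
      · rw [dif_pos h9]
        exact hτ.2 ⟨(i, j), h9⟩
      · exact absurd h9 hij
      · rw [dif_neg (not_lt.mpr h9.le), dif_pos h9]
        have h10 := B.rcp (q i) (q j) (hS i) (hS j) fun h => hij (hq h)
        have h11 := hτ.2 ⟨(j, i), h9⟩
        simp only at h11
        have h12 : (fun l => sy p ζ (q i) (u l)) = τ.1 i := funext fun l => hτ.1 i l
        rw [h6, h12, h11] at h10
        rw [← h10]
        ring
    rw [h8]
    ring
  rw [Finset.sum_congr rfl h7] at h5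
  rw [← Finset.sum_erase_add _ _ (Finset.mem_univ j), ← h5, hs']
  have h8 : Y j - Y j * (z j)⁻¹ * z j = 0 := by
    rw [mul_assoc, inv_mul_cancel₀ (hz j), mul_one, sub_self]
  rw [h8, zero_mul, add_zero]
  have h9 : dot (τ.1 j) (c - (Y j * (z j)⁻¹) • w) = dot (τ.1 j) c + -(Y j * (z j)⁻¹) * dot (τ.1 j) w := by
    simp only [dot, Pi.sub_apply, Pi.smul_apply, smul_eq_mul, mul_sub, Finset.sum_sub_distrib]
    rw [neg_mul, ← sub_eq_add_neg, Finset.mul_sum]
    congr 1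
    exact Finset.sum_congr rfl fun l _ => by ring
  rw [h9]
  ring

/-- the relation between `a` and its coordinates -/
def Rl (π : HeightOneSpectrum (𝓞 F) → F) (u : Fin f → F) (q : Fin k → HeightOneSpectrum (𝓞 F)) (a : F)
    (x : (Fin f → ZMod p) × (Fin k → ZMod p)) : Prop :=
  Eqv p (a * mon u x.1) (∏ j, π (q j) ^ (x.2 j).val)

theorem rl_uniq (hB : S_BAS) (B : Base p ζ y f u r π g) (q : Fin k → HeightOneSpectrum (𝓞 F))
    (hq : Function.Injective q) (hS : ∀ i, ¬ Sm y (q i)) {a a' : F} (ha : a ≠ 0) (ha' : a' ≠ 0)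
    (haa : Eqv p a a') {x x' : (Fin f → ZMod p) × (Fin k → ZMod p)} (h : Rl π u q a x)
    (h' : Rl π u q a' x') : x = x' := by
  have hp0 : p ≠ 0 := (Fact.out : p.Prime).ne_zero
  have hY : x.2 = x'.2 := by
    funext j
    have h1 := vl_rel hB B q hS ha h (hS j)
    have h2 := vl_rel hB B q hS ha' h' (hS j)
    rw [sum_ite_q hq] at h1 h2
    rw [← h1, ← h2]
    exact vl_eqv hB (q j) haa ha'
  have hm : mon u x.1 ≠ 0 := mon_ne B.ue _
  have hm' : mon u x'.1 ≠ 0 := mon_ne B.ue _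
  have h1 : Eqv p (mon u x.1) (mon u x'.1) := by
    have h2 : Eqv p (a * mon u x.1) (a' * mon u x'.1) := by
      unfold Rl at h h'
      rw [hY] at h
      exact eqv_trans h (eqv_symm h')
    have h3 := eqv_mul (eqv_inv haa) h2
    rwa [← mul_assoc, inv_mul_cancel₀ ha, one_mul, ← mul_assoc, inv_mul_cancel₀ ha', one_mul] at h3
  have h2 : Eqv p (mon u (x.1 - x'.1)) 1 := by
    have h3 : Eqv p (mon u (x.1 - x'.1) * mon u x'.1) (mon u x.1) := by
      have h4 : mon u (x.1 - x'.1) * mon u x'.1 =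
          ∏ l, u l ^ (((x.1 - x'.1) l).val + (x'.1 l).val) := by
        unfold mon
        rw [← Finset.prod_mul_distrib]
        exact Finset.prod_congr rfl fun l _ => (pow_add _ _ _).symm
      rw [h4]
      refine eqv_mon B.ue _ _ fun l => ?_
      rw [Nat.cast_add, ZMod.natCast_zmod_val, ZMod.natCast_zmod_val, Pi.sub_apply, sub_add_cancel]
    have h5 := eqv_mul (eqv_trans h3 h1) (eqv_refl (p := p) (mon u x'.1)⁻¹)
    rwa [mul_inv_cancel_right₀ hm', mul_inv_cancel₀ hm'] at h5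
  have h3 := B.ind _ (isPow_of h2)
  exact Prod.ext (sub_eq_zero.1 h3) hY

theorem rl_eqv (B : Base p ζ y f u r π g) {q : Fin k → HeightOneSpectrum (𝓞 F)}
    {a a' : F} {x : (Fin f → ZMod p) × (Fin k → ZMod p)} (h : Rl π u q a x)
    (h' : Rl π u q a' x) : Eqv p a a' := by
  have hm : mon u x.1 ≠ 0 := mon_ne B.ue _
  have h1 := eqv_mul (eqv_trans h (eqv_symm h')) (eqv_refl (p := p) (mon u x.1)⁻¹)
  rwa [mul_inv_cancel_right₀ hm, mul_inv_cancel_right₀ hm] at h1

/-- the element with given coordinates -/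
noncomputable def el (π : HeightOneSpectrum (𝓞 F) → F) (u : Fin f → F)
    (q : Fin k → HeightOneSpectrum (𝓞 F)) (x : (Fin f → ZMod p) × (Fin k → ZMod p)) : F :=
  (∏ j, π (q j) ^ (x.2 j).val) * (mon u x.1)⁻¹

theorem el_ne (B : Base p ζ y f u r π g) {q : Fin k → HeightOneSpectrum (𝓞 F)}
    (hS : ∀ i, ¬ Sm y (q i)) (x : (Fin f → ZMod p) × (Fin k → ZMod p)) : el π u q x ≠ 0 :=
  mul_ne_zero (Finset.prod_ne_zero_iff.2 fun j _ => pow_ne_zero _ (B.po (q j) (hS j)).1)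
    (inv_ne_zero (mon_ne B.ue _))

theorem el_rl (B : Base p ζ y f u r π g) (q : Fin k → HeightOneSpectrum (𝓞 F))
    (x : (Fin f → ZMod p) × (Fin k → ZMod p)) : Rl π u q (el π u q x) x := by
  unfold Rl el
  rw [inv_mul_cancel_right₀ (mon_ne B.ue _)]
  exact eqv_refl _

theorem nn_rl (hB : S_BAS) (B : Base p ζ y f u r π g) {q : Fin k → HeightOneSpectrum (𝓞 F)}
    (hS : ∀ i, ¬ Sm y (q i)) {τ : Tab p f k} (hτ : Tb ζ u π τ q) {a : F}
    {x : (Fin f → ZMod p) × (Fin k → ZMod p)} (h : Rl π u q a x) :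
    Nn p y (a * mon r (∑ j, x.2 j • τ.1 j) * mon u x.1) := by
  have h1 := nn_gen hB B q hS τ.1 hτ.1 x.2
  have h2 : Eqv p (a * mon r (∑ j, x.2 j • τ.1 j) * mon u x.1)
      ((∏ j, π (q j) ^ (x.2 j).val) * mon r (∑ j, x.2 j • τ.1 j)) := by
    have h3 := eqv_mul h (eqv_refl (p := p) (mon r (∑ j, x.2 j • τ.1 j)))
    have h4 : a * mon u x.1 * mon r (∑ j, x.2 j • τ.1 j) =
        a * mon r (∑ j, x.2 j • τ.1 j) * mon u x.1 := by ring
    rwa [h4] at h3
  exact nn_eqv hB h2 h1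

end

/-- **JOB SSX** -/
theorem ssx (hB : S_BAS) (hSH1 : S_SH1) : S_SSX := by
  classical
  intro p _ F _ _ ζ hζ y f u r π g B A E hE D0 ψ w hD0 hw k z q hz hq hS τ hτ D hfit N
  have hp0 : p ≠ 0 := (Fact.out : p.Prime).ne_zero
  have hdp : ∀ v : HeightOneSpectrum (𝓞 F), ¬ Sm y v → ¬ Dp p v := fun v hv h => hv (sm_of_dp B.two h)
  have hπ : ∀ i, π (q i) ≠ 0 := fun i => (B.po (q i) (hS i)).1
  have hvD : ∀ j, vl p (q j) D = z j := fun j => by rw [vl_D hfit (hS j), sum_ite_q hq]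
  -- every class has coordinates
  have step1 : ∀ a, CondX p y A D a → ∃ x ∈ SolX g w z E τ, Rl π u q a x := by
    intro a ha
    set Y : Fin k → ZMod p := fun j => vl p (q j) a with hY
    set P : F := ∏ j, π (q j) ^ (Y j).val with hP
    have hP0 : P ≠ 0 := Finset.prod_ne_zero_iff.2 fun j _ => pow_ne_zero _ (hπ j)
    have hev : ∀ v, ¬ Sm y v → vl p v (a * P⁻¹) = 0 := by
      intro v hv
      rw [vl_mul hB v ha.ne (inv_ne_zero hP0), vl_inv hB v hP0, hP, vl_gen hB B q hS Y hv]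
      by_cases h : ∃ i, q i = v
      · obtain ⟨i, rfl⟩ := h
        rw [sum_ite_q hq, add_neg_cancel]
      · push Not at h
        have h1 : vl p v D = 0 := by rw [vl_D hfit hv, sum_ite_none h]
        rw [ha.unr v hv h1, sum_ite_none h, neg_zero, add_zero]
    obtain ⟨c, hc⟩ := B.full _ (mul_ne_zero ha.ne (inv_ne_zero hP0)) hev
    have hmc : mon u c ≠ 0 := mon_ne B.ue c
    have hc1 : Eqv p (a * P⁻¹ * mon u c) 1 :=
      eqv_one_of (mul_ne_zero (mul_ne_zero ha.ne (inv_ne_zero hP0)) hmc) hc hp0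
    have hc2 : Eqv p (a * mon u c) P := by
      have h1 := eqv_mul hc1 (eqv_refl (p := p) P)
      rw [one_mul] at h1
      have h2 : a * P⁻¹ * mon u c * P = a * mon u c := by field_simp
      rwa [h2] at h1
    have hrl : Rl π u q a (c, Y) := hc2
    refine ⟨(c, Y), ⟨?_, ?_⟩, hrl⟩
    · exact (hE a _ ha.ne (nn_rl hB B hS hτ hrl)).2 ha.loc
    · intro j
      change ∑ i, (Y i - Y j * (z j)⁻¹ * z i) * Mt g τ i j = dot (τ.1 j) (c - (Y j * (z j)⁻¹) • w)
      obtain ⟨s, hs⟩ := ha.ram (q j) (hS j) (by rw [hvD j]; exact hz j)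
      have hvs := lpw_vl hB hs
      rw [vl_mul hB _ ha.ne (pow_ne_zero _ hfit.ne), vl_pow hB _ hfit.ne, hvD j] at hvs
      have hs' : (s : ZMod p) = - (Y j * (z j)⁻¹) := by
        have h1 : Y j + s * z j = 0 := hvs
        have h2 := hz j
        field_simp
        linear_combination h1
      have h1 := (sy_formula hB hSH1 hζ B hD0 hw z q hz hq hS τ hτ hfit ha.ne hc2 j hs').2
      rw [sy_lpw hB hζ (hdp _ (hS j)) hs] at h1
      exact sub_eq_zero.1 h1.symm
  -- every solution gives a class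
  have step2 : ∀ a x, a ≠ 0 → x ∈ SolX g w z E τ → Rl π u q a x → CondX p y A D a := by
    intro a x ha hx hrl
    refine ⟨ha, ?_, ?_, ?_⟩
    · intro v hv hvd
      rw [vl_rel hB B q hS ha hrl hv]
      by_cases h : ∃ i, q i = v
      · obtain ⟨i, rfl⟩ := h
        exact absurd (by rw [← hvD i]; exact hvd) (hz i)
      · push Not at h
        exact sum_ite_none h _
    · intro v hv hvd
      by_cases h : ∃ i, q i = v
      · obtain ⟨j, rfl⟩ := h
        have hs' : (((-(x.2 j * (z j)⁻¹)).val : ℕ) : ZMod p) = -(x.2 j * (z j)⁻¹) :=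
          ZMod.natCast_zmod_val _
        obtain ⟨h1, h2⟩ := sy_formula hB hSH1 hζ B hD0 hw z q hz hq hS τ hτ hfit ha hrl j hs'
        refine ⟨(-(x.2 j * (z j)⁻¹)).val, ?_⟩
        rw [hx.2 j, sub_self] at h2
        exact (((hB p F (q j)).2.2.2.2.2.2 (hdp _ hv) ζ hζ).2.2.2 _
          (mul_ne_zero ha (pow_ne_zero _ hfit.ne)) h1).1 h2
      · push Not at h
        exact absurd (by rw [vl_D hfit hv, sum_ite_none h]) hvd
    · exact (hE a _ ha (nn_rl hB B hS hτ hrl)).1 hx.1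
  have isPow_div : ∀ {a a' : F}, a' ≠ 0 → Eqv p a a' → IsPow p (a / a') := by
    intro a a' ha' h
    have h1 := eqv_mul h (eqv_refl (p := p) a'⁻¹)
    rw [mul_inv_cancel₀ ha', ← div_eq_mul_inv] at h1
    exact isPow_of h1
  have eqv_div : ∀ {a a' : F}, a ≠ 0 → a' ≠ 0 → IsPow p (a / a') → Eqv p a a' := by
    intro a a' ha ha' h
    have h1 := eqv_mul (eqv_one_of (div_ne_zero ha ha') h hp0) (eqv_refl (p := p) a')
    rwa [div_mul_cancel₀ _ ha', one_mul] at h1
  constructor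
  · rintro ⟨a, haP, hne, hall⟩
    have h1 : ∀ i, ∃ x ∈ SolX g w z E τ, Rl π u q (a i) x := fun i => step1 (a i) (haP i)
    choose x hx hrl using h1
    have hbij : Function.Bijective (fun i : Fin N => (⟨x i, hx i⟩ : SolX g w z E τ)) := by
      constructor
      · intro i i' h
        by_contra hii
        have h2 : x i = x i' := congrArg Subtype.val h
        have h3 := hrl i
        rw [h2] at h3
        exact hne i i' hii (isPow_div (haP i').ne (rl_eqv B h3 (hrl i')))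
      · rintro ⟨x', hx'⟩
        have h2 := step2 (el π u q x') x' (el_ne B hS x') hx' (el_rl B q x')
        obtain ⟨i, hi⟩ := hall _ h2
        refine ⟨i, Subtype.ext ?_⟩
        exact (rl_uniq hB B q hq hS (el_ne B hS x') (haP i).ne
          (eqv_div (el_ne B hS x') (haP i).ne hi) (el_rl B q x') (hrl i)).symm
    have h2 := Nat.card_congr (Equiv.ofBijective _ hbij)
    rw [Nat.card_eq_fintype_card, Fintype.card_fin] at h2
    exact h2
  · intro hN
    have : Finite (SolX g w z E τ) := Subtype.finite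
    obtain ⟨e⟩ : Nonempty (Fin N ≃ SolX g w z E τ) := by
      rw [hN]
      exact ⟨(Finite.equivFin _).symm⟩
    refine ⟨fun i => el π u q (e i).1, fun i => step2 _ _ (el_ne B hS _) (e i).2 (el_rl B q _),
      fun i j hij h => hij ?_, fun b hb => ?_⟩
    · apply e.injective
      apply Subtype.ext
      exact rl_uniq hB B q hq hS (el_ne B hS _) (el_ne B hS _)
        (eqv_div (el_ne B hS _) (el_ne B hS _) h) (el_rl B q _) (el_rl B q _)
    · obtain ⟨x, hx, hrl⟩ := step1 b hb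
      refine ⟨e.symm ⟨x, hx⟩, ?_⟩
      change IsPow p (b / el π u q (e (e.symm ⟨x, hx⟩)).1)
      rw [e.apply_symm_apply]
      exact isPow_div (el_ne B hS _) (rl_eqv B hrl (el_rl B q x))

end Pool.Agent.Q176.EN
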